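import Pool.Agent.helper70.BND.SpecH

/-!
# Row CAT of project bnd (MP_376aaf_an), block H: the concatenation of the words of the vertices
-/

set_option autoImplicit false

open scoped Topology
open Finset

namespace Pool.Agent.BND.EX

theorem CAT_aux (z : ℕ × ℝ) (D : List (ℕ × ℝ)) (c : ℕ → List (ℕ × ℝ)) (u : List ℕ) :
    z :: (u.flatMap fun x => z :: (D ++ c x ++ [z])) = (u.flatMap fun x => z :: z :: (D ++ c x)) ++ [z] := by
  induction u with
  | nil => rfl
  | cons x t ih =>
    rw [List.flatMap_cons, List.flatMap_cons]
    simp only [List.cons_append, List.append_assoc, List.nil_append] at ih ⊢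
    rw [ih]

theorem CAT : CAT_stmt := by
  intro l J M u hu
  cases u with
  | nil => exact absurd rfl hu
  | cons v t =>
    have h := CAT_aux (0, 0) (Dl l.N J) (fun x => vw (co l J (M x))) t
    rw [List.flatMap_cons]
    show FX l J (co l J (M v)) ++ (t.flatMap fun x => FX l J (co l J (M x))) = _
    simp only [FX, dc, List.cons_append, List.append_assoc, List.nil_append] at h ⊢
    rw [h]

end Pool.Agent.BND.EX
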